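import Pool.Agent.W242.TDF.Span
import Pool.Agent.W242.TDF.RatF

/-!
# The nine numbers and the linear subgroup theorem over `ℚ(π)` and `ℚ(e)`

`π + e`, `π - e`, `π e`, `π / e`, `e ^ (π²)` are the members `t = π`, `y = 1`, `P = 1`, `P = X²` of
the second family, `e ^ e` is the member `t = e`, `y = 1`, `P = X`. In the third family
`π ^ π` is `t = π`, `P = X`, `π ^ e` is `t = e`, `P = X` (both with `y = 1`), and `π ^ √2` is
`t = π`, `y = √2`, `P = 1`.
-/

set_option autoImplicit false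

namespace Pool.Agent.Results.MP_a2f59b_nt.SubgroupTheorem

open Polynomial Module
open Pool.Agent.W242.GG Pool.Agent.W242.TDF Pool.Agent.H301R2.SSE

theorem cpow_pi (z : ℂ) : (Real.pi : ℂ) ^ z = Complex.exp (((Real.log Real.pi : ℝ) : ℂ) * z) := by
  rw [Complex.cpow_def_of_ne_zero (by exact_mod_cast Real.pi_ne_zero), Complex.ofReal_log
    Real.pi_pos.le]

theorem result :
    -- `t = π` or `t = e`; `W` is a space of numbers `z` algebraic over `ℚ(t)` with `e ^ z` or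
    -- `π ^ z` algebraic over `ℚ(t)`, and `X` is any space of complex numbers
    (∀ t : ℂ, t = Real.pi ∨ t = Complex.exp 1 → ∀ X W Y : Submodule ℚ ℂ,
      FiniteDimensional ℚ X → FiniteDimensional ℚ W → FiniteDimensional ℚ Y →
      (∀ x ∈ X, ∀ z ∈ W, x * z ∈ Y) → (∀ z ∈ W, ¬ AlgebraicIndependent ℚ ![t, z]) →
      ((∀ z ∈ W, ¬ AlgebraicIndependent ℚ ![t, Complex.exp z]) →
        finrank ℚ X * finrank ℚ W ≤ finrank ℚ Y + finrank ℚ X * (finrank ℚ X - 1)) ∧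
      ((∀ z ∈ W, ¬ AlgebraicIndependent ℚ ![t, (Real.pi : ℂ) ^ z]) →
        finrank ℚ X * finrank ℚ W ≤ finrank ℚ Y + 2 * (finrank ℚ X * (finrank ℚ X - 1)))) ∧
    -- families of polynomials
    (∀ (t y : ℂ) (n : ℕ), t = Real.pi ∨ t = Complex.exp 1 → y ≠ 0 →
      (¬ AlgebraicIndependent ℚ ![t, y] →
        finrank ℚ (Submodule.span ℚ {P : ℚ[X] | P.natDegree ≤ n ∧
          ¬ AlgebraicIndependent ℚ ![t, Complex.exp (y * aeval t P)]}) ^ 2 ≤ 4 * n + 1 ∧
        finrank ℚ (Submodule.span ℚ {P : ℚ[X] | P.natDegree ≤ n ∧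
          ¬ (Transcendental ℚ (t + Complex.exp (y * aeval t P)) ∧
            Transcendental ℚ (t - Complex.exp (y * aeval t P)) ∧
            Transcendental ℚ (t * Complex.exp (y * aeval t P)) ∧
            Transcendental ℚ (t / Complex.exp (y * aeval t P)) ∧
            Transcendental ℚ (Complex.exp (y * aeval t P)))}) ^ 2 ≤ 4 * n + 1) ∧
      (finrank ℚ (Submodule.span ℚ {P : ℚ[X] | P.natDegree ≤ n ∧
        ¬ AlgebraicIndependent ℚ ![t, Complex.exp (y * aeval t P)]}) + 1) ^ 2 ≤ 8 * n + 4 ∧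
      (finrank ℚ (Submodule.span ℚ {P : ℚ[X] | P.natDegree ≤ n ∧
        ¬ AlgebraicIndependent ℚ ![t, (Real.pi : ℂ) ^ (y * aeval t P)]}) + 1) ^ 2 ≤ 8 * n + 4) ∧
    -- rational functions of degree at most `D`
    (∀ (t y : ℂ) (N D : ℕ) (P Q : Fin N → ℚ[X]), t = Real.pi ∨ t = Complex.exp 1 → y ≠ 0 →
      1 ≤ D → (∀ i, (P i).natDegree ≤ D ∧ (Q i).natDegree ≤ D ∧ Q i ≠ 0) →
      LinearIndependent ℚ (fun i => aeval t (P i) / aeval t (Q i)) →
      ((∀ i, ¬ AlgebraicIndependent ℚ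
        ![t, Complex.exp (y * (aeval t (P i) / aeval t (Q i)))]) →
        N ≤ 8 * D - 2 ∧ (¬ AlgebraicIndependent ℚ ![t, y] → N ≤ 4 * D)) ∧
      ((∀ i, ¬ AlgebraicIndependent ℚ
        ![t, (Real.pi : ℂ) ^ (y * (aeval t (P i) / aeval t (Q i)))]) → N ≤ 8 * D - 2)) ∧
    -- `π ^ e` is also the member `P = X` of this family, over `ℚ(π)`
    (∀ n : ℕ, finrank ℚ (Submodule.span ℚ {P : ℚ[X] | P.natDegree ≤ n ∧
      ¬ AlgebraicIndependent ℚ ![(Real.pi : ℂ), (Real.pi : ℂ) ^ (aeval (Complex.exp 1) P)]}) ≤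
      (2 * n + 10) / 3) ∧
    -- algebraic coefficients, algebraic values
    ∀ (t : ℂ) (n : ℕ), t = Real.pi ∨ t = Complex.exp 1 →
      finrank (algebraicClosure ℚ ℂ) (Submodule.span (algebraicClosure ℚ ℂ)
        {P : (algebraicClosure ℚ ℂ)[X] | P.natDegree ≤ n ∧
          IsAlgebraic ℚ (Complex.exp (aeval t P))}) ^ 2 ≤ 4 * n + 1 ∧
      finrank (algebraicClosure ℚ ℂ) (Submodule.span (algebraicClosure ℚ ℂ)
        {P : (algebraicClosure ℚ ℂ)[X] | P.natDegree ≤ n ∧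
          IsAlgebraic ℚ ((Real.pi : ℂ) ^ (aeval t P))}) ^ 2 ≤ 4 * n + 1 := by
  have hpi : Transcendental ℚ (Real.pi : ℂ) := piC_tr
  have htr : ∀ t : ℂ, t = Real.pi ∨ t = Complex.exp 1 → Transcendental ℚ t := by
    rintro t (rfl | rfl)
    · exact hpi
    · exact exp_one_tr
  refine ⟨?_, ?_, ?_, ?_, ?_⟩
  · intro t ht X W Y hX hW hY hXY hWt
    have htt := htr t ht
    have hWa : ∀ z ∈ W, Pool.Agent.W243.TD.Al t z := fun z hz => dep_alg htt (hWt z hz)
    refine ⟨fun h => ?_, fun h => ?_⟩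
    · exact Pool.Agent.W243.TD.prod1 htt X W Y hWa (fun z hz => dep_alg htt (h z hz)) hXY
    · refine Pool.Agent.W243.TD.prod2 htt log_pi_ne X W Y hWa (fun z hz => ?_) hXY
      have h1 := h z hz
      rw [cpow_pi] at h1
      exact dep_alg htt h1
  · intro t y n ht hy
    have htt := htr t ht
    refine ⟨fun hya => ⟨?_, ?_⟩, ?_, ?_⟩
    · refine span_sq htt hy (dep_alg htt hya) n _ ?_
      rintro P ⟨h2, h3⟩
      exact ⟨h2, dep_alg htt h3⟩
    · refine span_sq htt hy (dep_alg htt hya) n _ ?_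
      rintro P ⟨h2, h3⟩
      exact ⟨h2, dep_alg htt (fun h4 => h3 (four_ops h4))⟩
    · refine span_sq2 htt hy n _ ?_
      rintro P ⟨h2, h3⟩
      exact ⟨h2, dep_alg htt h3⟩
    · refine span_sq2 htt (mul_ne_zero log_pi_ne hy) n _ ?_
      rintro P ⟨h2, h3⟩
      rw [cpow_pi, ← mul_assoc] at h3
      exact ⟨h2, dep_alg htt h3⟩
  · intro t y N D P Q ht hy hD hPQ hli
    have htt := htr t ht
    refine ⟨fun he => ratfun htt hy hD P Q (fun i => (hPQ i).1) (fun i => (hPQ i).2.1)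
      (fun i => (hPQ i).2.2) hli he, fun he => ?_⟩
    refine (ratfun htt (mul_ne_zero log_pi_ne hy) hD P Q (fun i => (hPQ i).1)
      (fun i => (hPQ i).2.1) (fun i => (hPQ i).2.2) hli (fun i => ?_)).1
    have h3 := he i
    rw [cpow_pi, ← mul_assoc] at h3
    exact h3
  · intro n
    refine span_any (Real.pi : ℂ) exp_one_tr log_pi_ne n _ ?_
    rintro P ⟨h2, h3⟩
    rw [cpow_pi] at h3
    exact ⟨h2, dep_alg hpi h3⟩
  · intro t n ht
    have htt := htr t ht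
    refine ⟨?_, ?_⟩
    · rw [sq]
      refine poly_alg_sq htt one_ne_zero n _ ?_
      rintro P ⟨h2, h3⟩
      rw [one_mul]
      exact ⟨h2, h3⟩
    · rw [sq]
      refine poly_alg_sq htt log_pi_ne n _ ?_
      rintro P ⟨h2, h3⟩
      rw [cpow_pi] at h3
      exact ⟨h2, h3⟩

end Pool.Agent.Results.MP_a2f59b_nt.SubgroupTheorem
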